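import Pool.Agent.H192R2.GP.Defs
import Pool.Agent.H175R2.Cw

/-! `frozen_of_cwLE` and `cls_of_frozen` : from clique-width to the encoding of the frozen
statement, and from the forbidden induced subgraphs of the frozen statement to the class `Cls`. -/

namespace Pool.Agent.H192R2.GP

open Pool.Agent.H175R2

/-- the encoding of clique-width at most `k` used in the frozen statement S05981 -/
def FrozenCw (k : ℕ) {V : Type} (G : SimpleGraph V) : Prop :=
    ∃ l : V → Fin k, ∀ P : Set V → (V → Fin k) → SimpleGraph V → Prop,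
      (∀ (v : V) (l0 : V → Fin k), P ({v} : Set V) l0 ⊥) →
      (∀ (S1 S2 : Set V) (l1 l2 l0 : V → Fin k) (H1 H2 : SimpleGraph V),
          P S1 l1 H1 → P S2 l2 H2 → Disjoint S1 S2 →
          (∀ u ∈ S1, l0 u = l1 u) → (∀ u ∈ S2, l0 u = l2 u) →
          P (S1 ∪ S2) l0 (H1 ⊔ H2)) →
      (∀ (S : Set V) (l0 : V → Fin k) (H H' : SimpleGraph V) (i j : Fin k),
          P S l0 H → i ≠ j →
          (∀ u v : V, H'.Adj u v ↔ (H.Adj u v ∨
              (u ∈ S ∧ v ∈ S ∧ ((l0 u = i ∧ l0 v = j) ∨ (l0 u = j ∧ l0 v = i))))) →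
          P S l0 H') →
      (∀ (S : Set V) (l0 l' : V → Fin k) (H : SimpleGraph V) (i j : Fin k),
          P S l0 H →
          (∀ u ∈ S, (l0 u = i → l' u = j) ∧ (l0 u ≠ i → l' u = l0 u)) →
          P S l' H) →
      P Set.univ l G

/-- the image of a graph under a map -/
def img {V W : Type} (f : W → V) (G0 : SimpleGraph W) : SimpleGraph V where
  Adj x y := x ≠ y ∧ ∃ a b, G0.Adj a b ∧ f a = x ∧ f b = y
  symm := ⟨by
    rintro x y ⟨hne, a, b, hab, ha, hb⟩
    exact ⟨hne.symm, b, a, hab.symm, hb, ha⟩⟩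
  loopless := ⟨by
    rintro x ⟨hne, _⟩
    exact hne rfl⟩

theorem img_adj {V W : Type} (f : W → V) (G0 : SimpleGraph W) (x y : V) :
    (img f G0).Adj x y ↔ (x ≠ y ∧ ∃ a b, G0.Adj a b ∧ f a = x ∧ f b = y) := Iff.rfl

theorem built_P {k : ℕ} {V : Type} {W : Type} {G0 : SimpleGraph W} {m : W → Fin k}
    (hb : CwBuilt k W G0 m) :
    ∀ (f : W → V) (_ : Function.Injective f) (l' : V → Fin k) (_ : ∀ w, l' (f w) = m w)
      (P : Set V → (V → Fin k) → SimpleGraph V → Prop),
      (∀ (v : V) (l0 : V → Fin k), P ({v} : Set V) l0 ⊥) →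
      (∀ (S1 S2 : Set V) (l1 l2 l0 : V → Fin k) (H1 H2 : SimpleGraph V),
          P S1 l1 H1 → P S2 l2 H2 → Disjoint S1 S2 →
          (∀ u ∈ S1, l0 u = l1 u) → (∀ u ∈ S2, l0 u = l2 u) →
          P (S1 ∪ S2) l0 (H1 ⊔ H2)) →
      (∀ (S : Set V) (l0 : V → Fin k) (H H' : SimpleGraph V) (i j : Fin k),
          P S l0 H → i ≠ j →
          (∀ u v : V, H'.Adj u v ↔ (H.Adj u v ∨
              (u ∈ S ∧ v ∈ S ∧ ((l0 u = i ∧ l0 v = j) ∨ (l0 u = j ∧ l0 v = i))))) →
          P S l0 H') →
      (∀ (S : Set V) (l0 l' : V → Fin k) (H : SimpleGraph V) (i j : Fin k),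
          P S l0 H →
          (∀ u ∈ S, (l0 u = i → l' u = j) ∧ (l0 u ≠ i → l' u = l0 u)) →
          P S l' H) →
      P (Set.range f) l' (img f G0) := by
  induction hb with
  | single i =>
    intro f hf l' hl P h1 h2 h3 h4
    have e1 : Set.range f = {f ()} := by
      ext x
      constructor
      · rintro ⟨⟨⟩, rfl⟩
        rfl
      · intro hx
        exact ⟨(), hx.symm⟩
    have e2 : img f (⊥ : SimpleGraph Unit) = ⊥ := by
      ext x y
      rw [img_adj]
      constructor
      · rintro ⟨_, a, b, hab, _⟩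
        exact absurd hab (by simp)
      · intro h
        exact absurd h (by simp)
    rw [e1, e2]
    exact h1 _ _
  | union A B G H l m hA hB ihA ihB =>
    intro f hf l' hl P h1 h2 h3 h4
    have e1 : Set.range f = Set.range (f ∘ Sum.inl) ∪ Set.range (f ∘ Sum.inr) := by
      ext x
      constructor
      · rintro ⟨a | b, rfl⟩
        · exact Or.inl ⟨a, rfl⟩
        · exact Or.inr ⟨b, rfl⟩
      · rintro (⟨a, rfl⟩ | ⟨b, rfl⟩)
        · exact ⟨_, rfl⟩
        · exact ⟨_, rfl⟩
    have e2 : img f (G ⊕g H) = img (f ∘ Sum.inl) G ⊔ img (f ∘ Sum.inr) H := by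
      ext x y
      rw [SimpleGraph.sup_adj, img_adj, img_adj, img_adj]
      constructor
      · rintro ⟨hne, a | a, b | b, hab, ha, hb⟩
        · exact Or.inl ⟨hne, a, b, by simpa using hab, ha, hb⟩
        · simp at hab
        · simp at hab
        · exact Or.inr ⟨hne, a, b, by simpa using hab, ha, hb⟩
      · rintro (⟨hne, a, b, hab, ha, hb⟩ | ⟨hne, a, b, hab, ha, hb⟩)
        · exact ⟨hne, Sum.inl a, Sum.inl b, by simpa using hab, ha, hb⟩
        · exact ⟨hne, Sum.inr a, Sum.inr b, by simpa using hab, ha, hb⟩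
    rw [e1, e2]
    refine h2 _ _ l' l' l' _ _
      (ihA (f ∘ Sum.inl) (hf.comp Sum.inl_injective) l' (fun w => hl (Sum.inl w)) P h1 h2 h3 h4)
      (ihB (f ∘ Sum.inr) (hf.comp Sum.inr_injective) l' (fun w => hl (Sum.inr w)) P h1 h2 h3 h4)
      ?_ (fun _ _ => rfl) (fun _ _ => rfl)
    rw [Set.disjoint_left]
    rintro x ⟨a, ha⟩ ⟨b, hb⟩
    have := hf (ha.trans hb.symm)
    simp at this
  | join A G l i j hij hA ih =>
    intro f hf l' hl P h1 h2 h3 h4
    refine h3 (Set.range f) l' (img f G) _ i j (ih f hf l' hl P h1 h2 h3 h4) hij ?_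
    intro u v
    rw [img_adj, img_adj]
    constructor
    · rintro ⟨hne, a, b, hab, ha, hb⟩
      rw [SimpleGraph.sup_adj, SimpleGraph.fromRel_adj] at hab
      rcases hab with hab | ⟨_, hab⟩
      · exact Or.inl ⟨hne, a, b, hab, ha, hb⟩
      · refine Or.inr ⟨⟨a, ha⟩, ⟨b, hb⟩, ?_⟩
        rw [← ha, ← hb, hl, hl]
        rcases hab with h | h
        · exact Or.inl h
        · exact Or.inr ⟨h.2, h.1⟩
    · rintro (⟨hne, a, b, hab, ha, hb⟩ | ⟨⟨a, ha⟩, ⟨b, hb⟩, h⟩)
      · exact ⟨hne, a, b, by rw [SimpleGraph.sup_adj]; exact Or.inl hab, ha, hb⟩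
      · rw [← ha, ← hb, hl, hl] at h
        have hne : a ≠ b := by
          rintro rfl
          rcases h with h | h
          · exact hij (h.1.symm.trans h.2)
          · exact hij (h.2.symm.trans h.1)
        refine ⟨?_, a, b, ?_, ha, hb⟩
        · intro huv
          exact hne (hf (ha.trans (huv.trans hb.symm)))
        · rw [SimpleGraph.sup_adj, SimpleGraph.fromRel_adj]
          refine Or.inr ⟨hne, ?_⟩
          rcases h with h | h
          · exact Or.inl h
          · exact Or.inr ⟨h.2, h.1⟩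
  | relabel A G l i j hA ih =>
    intro f hf l' hl P h1 h2 h3 h4
    have hl0 : ∀ w, Function.extend f l l' (f w) = l w := fun w => hf.extend_apply _ _ w
    refine h4 (Set.range f) (Function.extend f l l') l' _ i j
      (ih f hf (Function.extend f l l') hl0 P h1 h2 h3 h4) ?_
    rintro u ⟨w, rfl⟩
    rw [hl0, hl]
    constructor
    · intro h
      simp [h]
    · intro h
      simp [h]

theorem frozen_of_cwLE {k : ℕ} {V : Type} (G : SimpleGraph V) (h : Pool.Agent.H175R2.CwLE G k) :
    FrozenCw k G := by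
  obtain ⟨W, G', m, hb, ⟨e⟩⟩ := h
  refine ⟨fun v => m (e v), ?_⟩
  intro P h1 h2 h3 h4
  have := built_P hb (fun w => e.symm w) e.symm.injective (fun v => m (e v))
    (fun w => by simp) P h1 h2 h3 h4
  have e1 : Set.range (fun w => e.symm w) = Set.univ := by
    ext x
    simp only [Set.mem_range, Set.mem_univ, iff_true]
    exact ⟨e x, by simp⟩
  have e2 : img (fun w => e.symm w) G' = G := by
    ext x y
    rw [img_adj]
    constructor
    · rintro ⟨_, a, b, hab, ha, hb⟩
      rw [← ha, ← hb]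
      exact e.symm.map_rel_iff.2 hab
    · intro hxy
      exact ⟨hxy.ne, e x, e y, e.map_rel_iff.2 hxy, by simp, by simp⟩
  rw [e1, e2] at this
  exact this

/-- the class of the frozen statement is `Cls` -/
theorem cls_of_frozen {V : Type} (G : SimpleGraph V)
    (h1 : IsEmpty ((SimpleGraph.fromRel (fun a b : Fin 5 => a.val + 1 = b.val ∧ b.val ≤ 3))ᶜ ↪g G))
    (h2 : IsEmpty (SimpleGraph.fromRel (fun a b : Fin 5 =>
        (a.val = 0 ∧ b.val = 1) ∨ (a.val = 2 ∧ b.val = 3) ∨ (a.val = 3 ∧ b.val = 4)) ↪g G)) :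
    Cls G := by
  constructor
  · intro p1 p2 p3 p4 c h12 h23 h34 n13 n24 n14 hc1 hc2 hc3 hc4
    have d12 := h12.ne
    have d23 := h23.ne
    have d34 := h34.ne
    have dc1 := hc1.ne
    have dc2 := hc2.ne
    have dc3 := hc3.ne
    have dc4 := hc4.ne
    have d13 : p1 ≠ p3 := by
      rintro rfl
      exact n14 h34
    have d24 : p2 ≠ p4 := by
      rintro rfl
      exact n14 h12
    have d14 : p1 ≠ p4 := by
      rintro rfl
      exact n24 h12.symm
    have n31 : ¬ G.Adj p3 p1 := fun h => n13 h.symm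
    have n42 : ¬ G.Adj p4 p2 := fun h => n24 h.symm
    have n41 : ¬ G.Adj p4 p1 := fun h => n14 h.symm
    refine h1.false ⟨⟨![p3, p1, p4, p2, c], ?_⟩, ?_⟩
    · intro a b hab
      fin_cases a <;> fin_cases b <;> simp_all
    · intro a b
      simp only [Function.Embedding.coeFn_mk]
      fin_cases a <;> fin_cases b <;>
        simp [SimpleGraph.compl_adj, SimpleGraph.fromRel_adj, h12, h12.symm, h23, h23.symm, h34,
          h34.symm, n13, n24, n14, n31, n42, n41, hc1, hc1.symm, hc2, hc2.symm, hc3, hc3.symm,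
          hc4, hc4.symm]
  · intro a b c d e hab hcd hde hce nce nac nad nae nbc nbd nbe
    have dab := hab.ne
    have dcd := hcd.ne
    have dde := hde.ne
    have dac : a ≠ c := by
      rintro rfl
      exact nad hcd
    have dad : a ≠ d := by
      rintro rfl
      exact nae hde
    have dae : a ≠ e := by
      rintro rfl
      exact nad hde.symm
    have dbc : b ≠ c := by
      rintro rfl
      exact nbd hcd
    have dbd : b ≠ d := by
      rintro rfl
      exact nbe hde
    have dbe : b ≠ e := by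
      rintro rfl
      exact nbd hde.symm
    have nec : ¬ G.Adj e c := fun h => nce h.symm
    have nca : ¬ G.Adj c a := fun h => nac h.symm
    have nda : ¬ G.Adj d a := fun h => nad h.symm
    have nea : ¬ G.Adj e a := fun h => nae h.symm
    have ncb : ¬ G.Adj c b := fun h => nbc h.symm
    have ndb : ¬ G.Adj d b := fun h => nbd h.symm
    have neb : ¬ G.Adj e b := fun h => nbe h.symm
    refine h2.false ⟨⟨![a, b, c, d, e], ?_⟩, ?_⟩
    · intro x y hxy
      fin_cases x <;> fin_cases y <;> simp_all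
    · intro x y
      simp only [Function.Embedding.coeFn_mk]
      fin_cases x <;> fin_cases y <;>
        simp [SimpleGraph.fromRel_adj, hab, hab.symm, hcd, hcd.symm, hde, hde.symm, nce, nac, nad,
          nae, nbc, nbd, nbe, nec, nca, nda, nea, ncb, ndb, neb]

end Pool.Agent.H192R2.GP
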